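import Mathlib
import Pool.Agent.H15.G.R_seed8.H932R5.Reach

set_option autoImplicit false

/-!
# Every large real ratio is almost reachable: explicit, quasi-polynomially small errors

The argument of `H932R5.exists_up` with explicit constants.
-/

namespace Pool.Agent.H852.QP

open Pool.Agent.H932R3 Pool.Agent.H932R5

theorem shi_le (k : ℕ) : shi k ≤ 5 ^ (k + 5) := by
  unfold shi
  have : 5 ^ (k + 5) = 25 * 5 ^ (k + 3) := by ring
  rw [this]
  exact Nat.mul_le_mul_right _ (by norm_num)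

theorem shQ_le (m : ℕ) : shQ m ≤ 5 ^ (m ^ 2 + 5 * m + 1) := by
  induction m with
  | zero => norm_num [shQ]
  | succ m ih =>
    rw [shQ]
    calc shi m * shQ m ≤ 5 ^ (m + 5) * 5 ^ (m ^ 2 + 5 * m + 1) := Nat.mul_le_mul (shi_le m) ih
      _ = 5 ^ (m + 5 + (m ^ 2 + 5 * m + 1)) := by rw [← pow_add]
      _ ≤ 5 ^ ((m + 1) ^ 2 + 5 * (m + 1) + 1) := Nat.pow_le_pow_right (by norm_num) (by nlinarith)

theorem fac_le (k : ℕ) : (2 * k + 2).factorial ≤ 5 ^ (2 * (k + 1) ^ 2) := by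
  have h1 : 2 * k + 2 ≤ 5 ^ (k + 1) := by
    induction k with
    | zero => norm_num
    | succ k ih =>
      have : 5 ^ (k + 1 + 1) = 5 * 5 ^ (k + 1) := by ring
      omega
  calc (2 * k + 2).factorial ≤ (2 * k + 2) ^ (2 * k + 2) := Nat.factorial_le_pow _
    _ ≤ (5 ^ (k + 1)) ^ (2 * k + 2) := Nat.pow_le_pow_left h1 _
    _ = 5 ^ (2 * (k + 1) ^ 2) := by
      rw [← pow_mul]
      congr 1
      ring

/-- The constant of the last step. -/
theorem V_le (k : ℕ) : 4 * (shQ (2 * k + 1) * (2 * k + 2).factorial) * 13 ^ (2 * k + 3) *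
    2 ^ (2 * k) ≤ 5 ^ (14 * (k + 2) ^ 2) := by
  have h1 := shQ_le (2 * k + 1)
  have h2 := fac_le k
  have h3 : 13 ^ (2 * k + 3) ≤ 5 ^ (2 * (2 * k + 3)) := by
    rw [pow_mul]
    exact Nat.pow_le_pow_left (by norm_num) _
  have h4 : 2 ^ (2 * k) ≤ 5 ^ (2 * k) := Nat.pow_le_pow_left (by norm_num) _
  calc 4 * (shQ (2 * k + 1) * (2 * k + 2).factorial) * 13 ^ (2 * k + 3) * 2 ^ (2 * k)
      ≤ 5 ^ 1 * (5 ^ ((2 * k + 1) ^ 2 + 5 * (2 * k + 1) + 1) * 5 ^ (2 * (k + 1) ^ 2)) *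
        5 ^ (2 * (2 * k + 3)) * 5 ^ (2 * k) :=
        Nat.mul_le_mul (Nat.mul_le_mul (Nat.mul_le_mul (by norm_num) (Nat.mul_le_mul h1 h2)) h3) h4
    _ = 5 ^ (1 + ((2 * k + 1) ^ 2 + 5 * (2 * k + 1) + 1 + 2 * (k + 1) ^ 2) + 2 * (2 * k + 3) +
        2 * k) := by
        simp only [← pow_add]
    _ ≤ 5 ^ (14 * (k + 2) ^ 2) := Nat.pow_le_pow_right (by norm_num) (by nlinarith)

/-- The size of the number of points. -/
theorem N_le (k : ℕ) : 22049 * (5 ^ (2 * k + 1) * ((2 * k + 2) * (3 + shS (2 * k)))) *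
    (22049 * (5 ^ (2 * k + 1) * ((2 * k + 2) * (3 + shS (2 * k))))) * (12 * 5 ^ (2 * k + 1)) +
    26 * 5 ^ (2 * k + 1) + 1 ≤ 5 ^ (14 * k + 28) := by
  obtain ⟨a, ha⟩ : ∃ a, a = 5 ^ (2 * k) := ⟨_, rfl⟩
  have ha1 : 1 ≤ a := by rw [ha]; exact Nat.one_le_pow _ _ (by norm_num)
  have h1 : 5 ^ (2 * k + 1) = 5 * a := by rw [ha]; ring
  have h2 : 3 + shS (2 * k) ≤ 1250 * a := by
    have h3 := shS_le (2 * k)
    have h4 : shi (2 * k) = 1250 * a := by
      unfold shi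
      rw [ha]
      ring
    omega
  have h3 : 2 * k + 2 ≤ 2 * a := by
    have : k + 1 ≤ 5 ^ (2 * k) := by
      clear ha ha1 h1 h2 a
      induction k with
      | zero => norm_num
      | succ k ih =>
        have : 5 ^ (2 * (k + 1)) = 25 * 5 ^ (2 * k) := by ring
        omega
    omega
  have h4 : 5 ^ (14 * k + 28) = 5 ^ 28 * a ^ 7 := by
    rw [ha, ← pow_mul, ← pow_add]
    congr 1
    ring
  rw [h1, h4]
  have h5 : (2 * k + 2) * (3 + shS (2 * k)) ≤ 2500 * (a * a) := by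
    calc (2 * k + 2) * (3 + shS (2 * k)) ≤ 2 * a * (1250 * a) := Nat.mul_le_mul h3 h2
      _ = 2500 * (a * a) := by ring
  have h6 : 22049 * (5 * a * ((2 * k + 2) * (3 + shS (2 * k)))) ≤ 275612500 * a ^ 3 := by
    calc 22049 * (5 * a * ((2 * k + 2) * (3 + shS (2 * k)))) ≤
        22049 * (5 * a * (2500 * (a * a))) := Nat.mul_le_mul_left _ (Nat.mul_le_mul_left _ h5)
      _ = 275612500 * a ^ 3 := by ring
  calc 22049 * (5 * a * ((2 * k + 2) * (3 + shS (2 * k)))) *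
        (22049 * (5 * a * ((2 * k + 2) * (3 + shS (2 * k))))) * (12 * (5 * a)) +
        26 * (5 * a) + 1 ≤
      275612500 * a ^ 3 * (275612500 * a ^ 3) * (12 * (5 * a)) + 26 * (5 * a) + 1 := by
        have := Nat.mul_le_mul_right (12 * (5 * a)) (Nat.mul_le_mul h6 h6)
        omega
    _ = 275612500 * 275612500 * 60 * a ^ 7 + 130 * a + 1 := by ring
    _ ≤ 275612500 * 275612500 * 60 * a ^ 7 + 130 * a ^ 7 + 1 * a ^ 7 := by
        have h7 : a ≤ a ^ 7 := by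
          calc a = a ^ 1 := (pow_one a).symm
            _ ≤ a ^ 7 := Nat.pow_le_pow_right ha1 (by norm_num)
        have h8 : 1 ≤ a ^ 7 := Nat.one_le_pow _ _ ha1
        omega
    _ = (275612500 * 275612500 * 60 + 130 + 1) * a ^ 7 := by ring
    _ ≤ 5 ^ 28 * a ^ 7 := Nat.mul_le_mul_right _ (by norm_num)

theorem final_accQ {k r V : ℕ} {u T X : ℝ}
    (hV : V = 4 * (shQ (2 * k + 1) * (2 * k + 2).factorial) * 13 ^ (2 * k + 3) * 2 ^ (2 * k))
    (hVr : V ≤ r ^ (k + 2)) (hr : 1 ≤ r) (hu0 : 0 < u) (hu : u ≤ 2 * r) (hT0 : 0 < T)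
    (hX : (r : ℝ) / 13 ≤ X) (hT : T ≤ wu (2 * k + 1) X) : 2 * u * T ≤ 1 / u ^ k := by
  have hr1 : (1 : ℝ) ≤ r := by exact_mod_cast hr
  have hr0 : (0 : ℝ) < r := by linarith
  have hX0 : 0 < X := lt_of_lt_of_le (by positivity) hX
  have hc := ck_pos (2 * k + 1)
  have h5 : wu (2 * k + 1) X ≤ ck (2 * k + 1) / ((r : ℝ) / 13) ^ (2 * k + 3) := by
    unfold wu
    have h6 : ((r : ℝ) / 13) ^ (2 * k + 3) ≤ X ^ (2 * k + 3) :=
      pow_le_pow_left₀ (by positivity) hX _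
    have h7 : 2 * k + 1 + 2 = 2 * k + 3 := rfl
    rw [h7, div_le_div_iff₀ (by positivity) (by positivity)]
    obtain ⟨a, ha⟩ : ∃ a, a = ((r : ℝ) / 13) ^ (2 * k + 3) := ⟨_, rfl⟩
    obtain ⟨b, hb⟩ : ∃ b, b = X ^ (2 * k + 3) := ⟨_, rfl⟩
    have hb0 : 0 < b := by rw [hb]; positivity
    rw [← ha, ← hb] at h6 ⊢
    have h8 := mul_le_mul_of_nonneg_left h6 hc.le
    have h9 := mul_pos hc hb0
    linarith
  have h9 : ck (2 * k + 1) / ((r : ℝ) / 13) ^ (2 * k + 3) * (2 * (2 * r)) * 2 ^ (2 * k) =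
      (V : ℝ) / (r : ℝ) ^ (2 * k + 2) := by
    rw [hV]
    unfold ck
    have : 2 * k + 1 + 1 = 2 * k + 2 := rfl
    rw [this]
    push_cast
    rw [div_pow, pow_succ (r : ℝ) (2 * k + 2)]
    field_simp
    ring
  have h10 : (V : ℝ) / (r : ℝ) ^ (2 * k + 2) ≤ 1 / (r : ℝ) ^ k := by
    rw [div_le_div_iff₀ (by positivity) (by positivity), one_mul]
    have h11 : (V : ℝ) ≤ (r : ℝ) ^ (k + 2) := by exact_mod_cast hVr
    have h13 : (0 : ℝ) < (r : ℝ) ^ k := by positivity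
    calc (V : ℝ) * (r : ℝ) ^ k ≤ (r : ℝ) ^ (k + 2) * (r : ℝ) ^ k :=
          mul_le_mul_of_nonneg_right h11 h13.le
      _ = (r : ℝ) ^ (2 * k + 2) := by rw [← pow_add]; congr 1; ring
  have h14 : 2 * u * T ≤ (1 / (r : ℝ) ^ k) / 2 ^ (2 * k) := by
    rw [le_div_iff₀ (by positivity)]
    calc 2 * u * T * 2 ^ (2 * k) ≤
        2 * (2 * r) * (ck (2 * k + 1) / ((r : ℝ) / 13) ^ (2 * k + 3)) * 2 ^ (2 * k) := by
          refine mul_le_mul_of_nonneg_right ?_ (by positivity)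
          exact mul_le_mul (by linarith) (hT.trans h5) hT0.le (by positivity)
      _ = (V : ℝ) / (r : ℝ) ^ (2 * k + 2) := by rw [← h9]; ring
      _ ≤ 1 / (r : ℝ) ^ k := h10
  refine h14.trans ?_
  rw [div_div]
  refine one_div_le_one_div_of_le (by positivity) ?_
  calc u ^ k ≤ (2 * (r : ℝ)) ^ k := pow_le_pow_left₀ hu0.le hu k
    _ = (r : ℝ) ^ k * 2 ^ k := by rw [mul_pow, mul_comm]
    _ ≤ (r : ℝ) ^ k * 2 ^ (2 * k) :=
      mul_le_mul_of_nonneg_left (pow_le_pow_right₀ (by norm_num) (by omega)) (by positivity)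

/-- **Ratios reachable from `s0` very close to every real `u` much larger than `s0`.** -/
theorem exists_upQ (k : ℕ) (s0 u : ℝ) (hs : 1 ≤ s0) (hu' : (5 : ℝ) ^ (14 * k + 28) * s0 ≤ u) :
    ∃ σ, Up s0 σ ∧ σ ≤ u ∧ u - σ ≤ 1 / u ^ k := by
  obtain ⟨K, hKk⟩ : ∃ K : ℕ, K = 2 * k := ⟨_, rfl⟩
  obtain ⟨A, hA⟩ : ∃ A : ℕ, A = 5 ^ (K + 1) := ⟨_, rfl⟩
  have hA0 : 0 < A := by rw [hA]; positivity
  obtain ⟨W, hW⟩ : ∃ W : ℕ, W = (K + 2) * (3 + shS K) := ⟨_, rfl⟩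
  have hW0 : K + 2 ≤ W := by
    rw [hW]
    exact Nat.le_mul_of_pos_right _ (by omega)
  have hAW : A ≤ A * W := Nat.le_mul_of_pos_right _ (by omega)
  have hWAW : W ≤ A * W := Nat.le_mul_of_pos_left _ hA0
  obtain ⟨Q0, hQ0⟩ : ∃ Q0 : ℕ, Q0 = 22049 * (A * W) := ⟨_, rfl⟩
  obtain ⟨N, hN⟩ : ∃ N : ℕ, N = Q0 * Q0 * (12 * A) + 26 * A + 1 := ⟨_, rfl⟩
  have hNle : N ≤ 5 ^ (14 * k + 28) := by
    have h := N_le k
    rw [hN, hQ0, hA, hW, hKk]
    exact h
  have hu : (N : ℝ) * s0 ≤ u := by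
    refine le_trans (mul_le_mul_of_nonneg_right ?_ (by linarith)) hu'
    exact_mod_cast hNle
  have hNR : (1 : ℝ) ≤ N := by exact_mod_cast (show 1 ≤ N by omega)
  have huN : (N : ℝ) ≤ u := (le_mul_of_one_le_right (by linarith) hs).trans hu
  have huB : ((5 ^ (14 * k + 28) : ℕ) : ℝ) ≤ u := by
    push_cast
    exact (le_mul_of_one_le_right (by positivity) hs).trans hu'
  have hu0 : 0 < u := by linarith
  obtain ⟨r, hr⟩ : ∃ r : ℕ, r = ⌊u + 1 / 2⌋₊ := ⟨_, rfl⟩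
  have hr1 : (r : ℝ) ≤ u + 1 / 2 := by
    rw [hr]
    exact Nat.floor_le (by linarith)
  have hr2 : u + 1 / 2 < r + 1 := by
    rw [hr]
    exact Nat.lt_floor_add_one _
  have hNr : N ≤ r := by
    rw [hr]
    refine Nat.le_floor ?_
    linarith
  have hBr : 5 ^ (14 * k + 28) ≤ r := by
    rw [hr]
    refine Nat.le_floor ?_
    linarith
  have hVr : 4 * (shQ (2 * k + 1) * (2 * k + 2).factorial) * 13 ^ (2 * k + 3) *
      2 ^ (2 * k) ≤ r ^ (k + 2) := by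
    refine (V_le k).trans ?_
    have e : 5 ^ (14 * (k + 2) ^ 2) = (5 ^ (14 * k + 28)) ^ (k + 2) := by
      rw [← pow_mul]
      congr 1
      ring
    rw [e]
    exact Nat.pow_le_pow_left hBr _
  clear hBr huB hNle hu'
  have hur : |u - r| ≤ 1 / 2 := by
    rw [abs_le]
    constructor <;> linarith
  obtain ⟨κ, hκ⟩ : ∃ κ, κ = bet r - Real.log u / 2 := ⟨_, rfl⟩
  have ht : Tgt r u κ := ⟨hκ, hur⟩
  have hr1R : (1 : ℝ) ≤ r := by exact_mod_cast (show 1 ≤ r by omega)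
  obtain ⟨q, hqQ, hAq, hrq⟩ := exists_q (r := r) (A := A) (Q0 := Q0) hA0 (by omega) (by omega)
  have hrqR : (r : ℝ) ≤ 13 * (A * (q : ℝ) ^ 2) := by exact_mod_cast hrq
  have h12 : 12 * q ^ 2 ≤ r := by
    have : q ^ 2 * 12 ≤ q ^ 2 * (12 * A) := Nat.mul_le_mul_left _ (by omega)
    omega
  have hsq : s0 ≤ (q : ℝ) ^ 2 := by
    have h1 : (26 : ℝ) * A ≤ N := by exact_mod_cast (show 26 * A ≤ N by omega)
    have h2 : 26 * (A : ℝ) * s0 ≤ 26 * A * (q : ℝ) ^ 2 := by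
      have h3 : (26 : ℝ) * A * s0 ≤ N * s0 := mul_le_mul_of_nonneg_right h1 (by linarith)
      linarith
    have hAR : (0 : ℝ) < A := by exact_mod_cast hA0
    exact le_of_mul_le_mul_left h2 (by positivity)
  have hs0 : 0 < s0 := by linarith
  obtain ⟨P, T, hP1, hP2, hPm, hT, hT1, hT2, hP3⟩ := reach_window hs ht (by omega) hA0 (by omega)
    hrq h12 hsq
  have hq1 : 1 ≤ q := by omega
  have hq2 : q ≤ q ^ 2 := by
    rw [pow_two]
    exact Nat.le_mul_of_pos_left q hq1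
  have hsm' : Small r P := fun p hp =>
    small_of (q := q) (A := A) (by omega) hA0 (by omega) hrq (by omega) p (by omega)
  have hPR : (q : ℝ) ^ 2 ≤ P := by exact_mod_cast hP1
  have hqR : (1 : ℝ) ≤ q := by exact_mod_cast hq1
  have hP0 : (0 : ℝ) < P := lt_of_lt_of_le (by positivity) hPR
  have hth : ∀ k ≤ K, 10 * ((k + 2) * (3 + shS k)) ≤ P := by
    intro k hk
    have h1 : (k + 2) * (3 + shS k) ≤ (K + 2) * (3 + shS K) :=
      Nat.mul_le_mul (by omega) (by have := shS_mono hk; omega)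
    rw [← hW] at h1
    omega
  have hAP : A * P ≤ r := by
    have h1 : A * P ≤ A * (12 * q ^ 2) := Nat.mul_le_mul_left _ (by omega)
    have h2 : A * (12 * q ^ 2) = q ^ 2 * (12 * A) := by ring
    omega
  have hKq : 128 * ((K : ℝ) + 2) ≤ 1696 * q := by
    have h1 : K + 2 ≤ q := by omega
    have h2 : (K : ℝ) + 2 ≤ q := by exact_mod_cast h1
    linarith
  obtain ⟨σ, T3, hσ, hlog, hT30, hT3⟩ := main_ind (K := K) hs0 ht (by omega) hsm' hPm hth
    (by rw [← hA]; exact hAP) (by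
      rw [div_le_div_iff₀ (by positivity) (by positivity)]
      have h2 : 128 * ((K : ℝ) + 2) * r ≤ 1696 * q * r :=
        mul_le_mul_of_nonneg_right hKq (by linarith)
      linarith) hT (by
      unfold wl
      rw [ck_zero]
      have : (4 : ℝ) / (2 * (P : ℝ) ^ (0 + 2)) = 2 / (P : ℝ) ^ 2 := by
        rw [div_eq_div_iff (by positivity) (by positivity)]
        ring
      rw [this]
      exact hT1) (by
      unfold wu
      rw [ck_zero]
      have : (9 : ℝ) * 4 / (10 * (P : ℝ) ^ (0 + 2)) = 18 / (5 * (P : ℝ) ^ 2) := by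
        rw [div_eq_div_iff (by positivity) (by positivity)]
        ring
      rw [this]
      exact hT2)
  have hσ0 : 0 < σ := hσ.pos hs0
  have hσe : σ = u * Real.exp (-(2 * T3)) := by
    rw [← Real.exp_log hσ0, hlog, sub_eq_add_neg, Real.exp_add, Real.exp_log hu0]
  have hexp1 : Real.exp (-(2 * T3)) ≤ 1 := by
    rw [Real.exp_le_one_iff]
    linarith
  have hexp2 : 1 - 2 * T3 ≤ Real.exp (-(2 * T3)) := by
    have := Real.add_one_le_exp (-(2 * T3))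
    linarith
  refine ⟨σ, hσ, ?_, ?_⟩
  · rw [hσe]
    exact mul_le_of_le_one_right hu0.le hexp1
  · have h1 : u - σ ≤ 2 * u * T3 := by
      rw [hσe]
      have := mul_le_mul_of_nonneg_left hexp2 hu0.le
      linarith
    rw [hKk] at hT3
    refine h1.trans (final_accQ (r := r) rfl hVr (by omega) hu0 (by linarith) hT30 ?_ hT3)
    have h4 : (A : ℝ) = 5 ^ (2 * k + 1) := by rw [hA, hKk]; push_cast; ring
    rw [← h4]
    have h5 : (A : ℝ) * (q : ℝ) ^ 2 ≤ A * P := mul_le_mul_of_nonneg_left hPR (Nat.cast_nonneg _)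
    linarith

end Pool.Agent.H852.QP
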