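import Mathlib
import Pool.Agent.H15.G.R_seed8.H852.QP.Up

set_option autoImplicit false

/-!
# The ratios of the phases, with explicit constants
-/

namespace Pool.Agent.H852.QP

open Pool.Agent.H932R3 Pool.Agent.H932R5

/-- The ratios needed in the phases, with explicit constants. -/
theorem ratioQ (k : ℕ) {L : ℝ} (hL1 : 1 ≤ L) (hN : (5 : ℝ) ^ (14 * k + 28) ≤ L ^ 2) (E t : ℕ)
    (ht : t < E) :
    ∃ σ, Up (L ^ (E - 1 - t)) σ ∧ σ ≤ L ^ (E + 1 - t) ∧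
      Real.sqrt (L ^ (E + 1 - t) / σ) ≤ 1 + 2 / (L ^ 2) ^ k ∧
      1 - 1 / (L ^ 2) ^ k ≤ Real.sqrt (σ / L ^ (E + 1 - t)) := by
  have hL0 : 0 < L := by linarith
  have hs1 : 1 ≤ L ^ (E - 1 - t) := one_le_pow₀ hL1
  have hus : L ^ (E + 1 - t) = L ^ (E - 1 - t) * L ^ 2 := by
    rw [← pow_add]
    congr 1
    omega
  obtain ⟨s, hs⟩ : ∃ s, s = L ^ (E - 1 - t) := ⟨_, rfl⟩
  obtain ⟨u, hu⟩ : ∃ u, u = L ^ (E + 1 - t) := ⟨_, rfl⟩
  rw [← hs, ← hu] at hus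
  rw [← hs] at hs1
  have hL2 : 1 ≤ L ^ 2 := one_le_pow₀ hL1
  have hLu : L ^ 2 ≤ u := by
    rw [hus]
    exact le_mul_of_one_le_left (by positivity) hs1
  have hNs : (5 : ℝ) ^ (14 * k + 28) * s ≤ u := by
    rw [hus, mul_comm]
    exact mul_le_mul_of_nonneg_left hN (by linarith)
  obtain ⟨σ, hσ, hσu, hclose⟩ := exists_upQ k s u hs1 hNs
  rw [← hs, ← hu]
  have h5 : (5 : ℝ) ≤ (5 : ℝ) ^ (14 * k + 28) := le_self_pow₀ (by norm_num) (by omega)
  have hu5 : 5 ≤ u := by linarith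
  have hu0 : 0 < u := by linarith
  have hσ0 : 0 < σ := hσ.pos (by linarith)
  have hkk : 1 / u ^ k ≤ 1 / (L ^ 2) ^ k :=
    one_div_le_one_div_of_le (by positivity) (pow_le_pow_left₀ (by positivity) hLu k)
  have hk1 : 1 / (L ^ 2) ^ k ≤ 1 := by
    rw [div_le_one (by positivity)]
    exact one_le_pow₀ hL2
  have hk0 : 0 < 1 / (L ^ 2) ^ k := by positivity
  refine ⟨σ, hσ, hσu, ?_, ?_⟩
  · have h1 : 1 ≤ u / σ := by
      rw [le_div_iff₀ hσ0, one_mul]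
      exact hσu
    have h2 : Real.sqrt (u / σ) ≤ u / σ := by
      rw [Real.sqrt_le_left (by linarith)]
      nlinarith
    refine h2.trans ?_
    rw [div_le_iff₀ hσ0]
    have e : 2 / (L ^ 2) ^ k = 2 * (1 / (L ^ 2) ^ k) := by ring
    rw [e]
    have hσ1 : 1 ≤ σ := by linarith
    nlinarith
  · have h1 : σ / u ≤ 1 := by
      rw [div_le_one hu0]
      exact hσu
    have h2 : σ / u ≤ Real.sqrt (σ / u) := by
      apply Real.le_sqrt_of_sq_le
      have : 0 ≤ σ / u := by positivity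
      nlinarith
    refine le_trans ?_ h2
    rw [le_div_iff₀ hu0]
    nlinarith

end Pool.Agent.H852.QP
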