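import Mathlib
import Pool.Agent.H15.G.R_seed8.H852.QP.Wald

set_option autoImplicit false

/-!
# Both windows at generic points, in every characteristic
-/

namespace Pool.Agent.H852.QP

open MvPolynomial Pool.Agent.H932R5 Pool.Agent.H519R3.AC

universe u v

section ext

variable {K : Type u} [Field K] {L : Type v} [Field L] [Algebra K L] {E n : ℕ}

theorem map_mem_mspan {M : Set (Fin (E + 1) →₀ ℕ)} {f : MvPolynomial (Fin (E + 1)) K}
    (hf : f ∈ mspan K M) : map (algebraMap K L) f ∈ mspan L M := by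
  rw [mem_mspan] at hf ⊢
  intro α hα
  refine hf α fun h0 => hα ?_
  rw [coeff_map, h0, map_zero]

/-- Independence at algebraically independent points of an extension field. -/
theorem surjAt_of_rk {m d : ℕ}
    (h : FRk (ptsFam K E (fun _ : Fin n => m)) (Td E d) (n * (m + E).choose (E + 1)))
    {P : Fin n → Fin (E + 1) → L}
    (hP : AlgebraicIndependent K (fun q : Fin n × Fin (E + 1) => P q.1 q.2)) :
    SurjAt (fun _ : Fin n => m) P d := by
  obtain ⟨x, v, hv, hli⟩ := h
  obtain ⟨F, hF, hF'⟩ := exists_open_ext (L := L) (w := fun _ : Fin n => m) v x hli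
  have hF2 : aeval (fun q : Fin n × Fin (E + 1) => P q.1 q.2) F ≠ (0 : L) := by
    intro h0
    exact hF ((algebraicIndependent_iff.1 hP) F h0)
  refine surj_of_li (fun i => map (algebraMap K L) (v i)) (fun i => map_mem_mspan (hv i))
    (hF' P hF2) ?_
  rw [Finset.sum_const, Finset.card_univ, Fintype.card_fin, smul_eq_mul]

end ext

section prime

variable {k : Type u} [Field k] [IsAlgClosed k] {E n : ℕ}

/-- **Independence at generic points** of an algebraically closed field of any characteristic. -/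
theorem surjAt_generic {w : Fin n → ℕ} {P : Fin n → Fin (E + 1) → k}
    (hP : AlgebraicIndependent (⊥ : Subfield k) (fun q : Fin n × Fin (E + 1) => P q.1 q.2))
    {L ν : ℝ}
    (hrat : ∀ E t : ℕ, t < E → ∃ σ, Up (L ^ (E - 1 - t)) σ ∧ σ ≤ L ^ (E + 1 - t) ∧
      ν ≤ Real.sqrt (σ / L ^ (E + 1 - t)))
    (hL : 1 ≤ L) (hν0 : 0 < ν) (hν : ν ≤ 1) (hn : L ^ (E + 1) = n) {d : ℕ}
    (hd : ∀ i, L * (w i + E) ≤ ν ^ E * d) : SurjAt w P d := by
  have h1 : IsAlgClosed (algebraicClosure (⊥ : Subfield k) k) :=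
    (algebraicClosure.isAlgClosure (⊥ : Subfield k) k).1
  have h2 : Infinite (algebraicClosure (⊥ : Subfield k) k) := IsAlgClosed.instInfinite
  obtain ⟨m, hm⟩ : ∃ m, m = Finset.univ.sup w := ⟨_, rfl⟩
  have hwm : ∀ i, w i ≤ m := fun i => by rw [hm]; exact Finset.le_sup (Finset.mem_univ i)
  rcases Nat.eq_zero_or_pos m with hm0 | hm0
  · refine SurjAt.of_zero (fun i => ?_) P d
    have := hwm i
    omega
  · have hn0 : 0 < n := by
      rcases Nat.eq_zero_or_pos n with h0 | h0
      · exfalso
        subst h0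
        rw [hm, Finset.univ_eq_empty, Finset.sup_empty] at hm0
        exact lt_irrefl _ hm0
      · exact h0
    obtain ⟨i, _, hi⟩ := Finset.exists_mem_eq_sup Finset.univ ⟨⟨0, hn0⟩, Finset.mem_univ _⟩ w
    have h3 := hd i
    rw [← hi, ← hm] at h3
    have h4 := base_pts (K := algebraicClosure (⊥ : Subfield k) k) (E := E) (fun _ : Fin n => m)
    have h5 : FFull (ptsFam (algebraicClosure (⊥ : Subfield k) k) E (fun _ : Fin n => m))
        (M0 E n m) := by
      have e : (M0 E n m) = {p : Fin (E + 1) →₀ ℕ | p 0 + n * ∑ j : Fin E, p j.succ <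
          ∑ _i : Fin n, m} := by
        unfold M0
        rw [Finset.sum_const, Finset.card_univ, Fintype.card_fin, smul_eq_mul]
      rw [e]
      exact h4
    have h6 := rk_main h5 hm0 hrat hL hν0 hν hn h3
    exact (surjAt_of_rk h6 hP.algebraicClosure).mono_w hwm

end prime

/-- The plane: forms of degree `d` at generic points, every characteristic. -/
theorem windowsQ {k : Type u} [Field k] [IsAlgClosed k] {r q : ℕ} (hr : 5 ^ (14 * q + 28) ≤ r)
    {P : Fin r → Fin 2 → k}
    (hP : AlgebraicIndependent (⊥ : Subfield k) (fun ij : Fin r × Fin 2 => P ij.1 ij.2))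
    {w : Fin r → ℕ} {d : ℕ}
    (hd : (1 + 2 / (r : ℝ) ^ q) * (Real.sqrt r * d) < ((∑ i, w i : ℕ) : ℝ) ∨
      ∀ i, Real.sqrt r * (w i + 1) ≤ (1 - 1 / (r : ℝ) ^ q) * d) :
    Module.finrank k ↥(Vd (E := 1) d w P) = (d + 2).choose 2 - ∑ i, (w i + 1).choose 2 := by
  have hr0 : 0 < r := lt_of_lt_of_le (by positivity) hr
  have hrR : (0 : ℝ) < r := by exact_mod_cast hr0
  have hr5 : 5 ≤ r := by
    refine le_trans ?_ hr
    calc 5 = 5 ^ 1 := by norm_num
      _ ≤ 5 ^ (14 * q + 28) := Nat.pow_le_pow_right (by norm_num) (by omega)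
  have hr1 : (5 : ℝ) ≤ r := by exact_mod_cast hr5
  have hss : Real.sqrt r ^ 2 = r := Real.sq_sqrt hrR.le
  have hL1 : 1 ≤ Real.sqrt r := by
    rw [Real.one_le_sqrt]
    linarith
  have hrat := ratioQ q hL1 (by
    rw [hss]
    exact_mod_cast hr)
  rcases hd with hd | hd
  · have h1 := emptyQ hr hP hd
    have h2 := finrank_ge (E := 1) (K := k) d w P
    have h3 := h1.finrank
    rw [h3] at h2 ⊢
    have e1 : (d + 1 + 1).choose (1 + 1) = (d + 2).choose 2 := rfl
    have e2 : ∑ i, (w i + 1).choose (1 + 1) = ∑ i, (w i + 1).choose 2 := rfl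
    omega
  · rcases Nat.eq_zero_or_pos q with hq | hq
    · -- `q = 0`: no points of positive multiplicity
      subst hq
      exfalso
      have h1 := hd ⟨0, hr0⟩
      rw [pow_zero, div_one, sub_self, zero_mul] at h1
      have h2 : 0 < Real.sqrt r * ((w ⟨0, hr0⟩ : ℝ) + 1) := by positivity
      linarith
    · have hrq : (r : ℝ) ≤ (r : ℝ) ^ q := le_self_pow₀ (by linarith) (by omega)
      have hν : 1 / (r : ℝ) ^ q ≤ 1 / 5 := one_div_le_one_div_of_le (by norm_num) (by linarith)
      have hν2 : 0 < 1 / (r : ℝ) ^ q := by positivity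
      have h1 : SurjAt (E := 1) w P d := by
        refine surjAt_generic (E := 1) (w := w) hP (L := Real.sqrt r)
          (ν := 1 - 1 / (r : ℝ) ^ q) (fun E t ht => ?_) hL1 (by linarith) (by linarith) ?_
          (fun i => ?_)
        · obtain ⟨σ, h1, h2, _, h4⟩ := hrat E t ht
          rw [hss] at h4
          exact ⟨σ, h1, h2, h4⟩
        · exact hss
        · rw [pow_one]
          have h5 := hd i
          push_cast
          exact h5
      have h2 := h1.finrank
      have e1 : (d + 1 + 1).choose (1 + 1) = (d + 2).choose 2 := rfl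
      have e2 : ∑ i, (w i + 1).choose (1 + 1) = ∑ i, (w i + 1).choose 2 := rfl
      omega

end Pool.Agent.H852.QP
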