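import Mathlib
import Pool.Agent.H15.G.R_seed8.H852.QP.Both

set_option autoImplicit false

/-!
# Very general points
-/

namespace Pool.Agent.H852.QP

open MvPolynomial Pool.Agent.H932R5 Pool.Agent.H519R3.AC

universe u

/-- Algebraic independence over `ℚ` gives algebraic independence over the prime field. -/
theorem algInd_bot {σ : Type} {x : σ → ℂ} (h : AlgebraicIndependent ℚ x) :
    AlgebraicIndependent (⊥ : Subfield ℂ) x := by
  rw [algebraicIndependent_iff] at h ⊢
  intro p hp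
  have hsurj : Function.Surjective (algebraMap ℚ (⊥ : Subfield ℂ)) := by
    rintro ⟨z, hz⟩
    rw [Subfield.bot_eq_of_charZero] at hz
    obtain ⟨y, hy⟩ := hz
    exact ⟨y, Subtype.ext hy⟩
  obtain ⟨p', rfl⟩ := MvPolynomial.map_surjective _ hsurj p
  rw [MvPolynomial.aeval_map_algebraMap] at hp
  rw [h p' hp, map_zero]

/-- Outside countably many hypersurfaces all coordinates are algebraically independent. -/
theorem exists_family (σ : Type) [Finite σ] : ∃ F : ℕ → MvPolynomial σ ℂ, (∀ j, F j ≠ 0) ∧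
    ∀ x : σ → ℂ, (∀ j, eval x (F j) ≠ 0) → AlgebraicIndependent (⊥ : Subfield ℂ) x := by
  classical
  have hc : Countable (MvPolynomial σ ℚ) := by
    rw [← Cardinal.mk_le_aleph0_iff]
    refine MvPolynomial.cardinalMk_le_max.trans ?_
    simp only [max_le_iff]
    exact ⟨⟨Cardinal.mk_le_aleph0, Cardinal.mk_le_aleph0⟩, le_rfl⟩
  have hne : Nonempty {f : MvPolynomial σ ℚ // f ≠ 0} := ⟨⟨1, one_ne_zero⟩⟩
  obtain ⟨g, hg⟩ := exists_surjective_nat {f : MvPolynomial σ ℚ // f ≠ 0}
  refine ⟨fun j => (g j).1.map (algebraMap ℚ ℂ), fun j h0 => (g j).2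
    (MvPolynomial.map_injective (algebraMap ℚ ℂ) (algebraMap ℚ ℂ).injective
      (h0.trans (map_zero _).symm)), fun x hx => algInd_bot ?_⟩
  rw [algebraicIndependent_iff]
  intro p hp
  by_contra hne0
  obtain ⟨j, hj⟩ := hg ⟨p, hne0⟩
  refine hx j ?_
  show eval x ((g j).1.map (algebraMap ℚ ℂ)) = 0
  rw [hj, eval_map]
  exact hp

theorem Vd_plane {k : Type u} [Field k] {r : ℕ} (d : ℕ) (w : Fin r → ℕ) (P : Fin r → Fin 2 → k) :
    Vd (E := 1) d w P = MvPolynomial.homogeneousSubmodule (Fin 3) k d ⊓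
      Submodule.restrictScalars k
        (⨅ i : Fin r, (Ideal.span {X 1 - C (P i 0) * X 0, X 2 - C (P i 1) * X 0} :
          Ideal (MvPolynomial (Fin 3) k)) ^ (w i)) := by
  unfold Vd
  congr 2
  congr 1
  funext i
  rw [hI_plane]

end Pool.Agent.H852.QP
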